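import Pool.Agent.H2.KM.Targets
import Pool.Agent.H2.NL.Basic

/-!
# The supertrace is the iterated mixed contraction
-/

set_option autoImplicit false
set_option linter.unusedSectionVars false

open Matrix Pool.Agent.H2.NL Pool.Agent.H2.KM Pool.Agent.H64.CC

namespace Pool.Agent.H17.KM

variable {K : Type} [Field K] {I : Type} [Fintype I] [DecidableEq I]

/-! ### Sums over words -/

private def consE (I : Type) (l : ℕ) : I × List.Vector I l ≃ List.Vector I (l + 1) where
  toFun p := List.Vector.cons p.1 p.2
  invFun v := (v.head, v.tail)
  left_inv p := by simp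
  right_inv v := by simp

private theorem sum_vec_succ (l : ℕ) (f : List I → K) :
    ∑ v : List.Vector I (l + 1), f v.1 = ∑ a : I, ∑ v : List.Vector I l, f (a :: v.1) := by
  rw [← Fintype.sum_prod_type' (fun (a : I) (v : List.Vector I l) => f (a :: v.1))]
  refine (Fintype.sum_equiv (consE I l) _ _ fun p => ?_).symm
  rfl

private theorem sum_vec_zero (f : List I → K) :
    ∑ v : List.Vector I 0, f v.1 = f [] := by
  rw [Fintype.sum_eq_single (List.Vector.nil : List.Vector I 0)]
  · rfl
  · intro v hv
    exact absurd (List.Vector.eq_nil v) hv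

private def revE (I : Type) (l : ℕ) : List.Vector I l ≃ List.Vector I l where
  toFun v := ⟨v.1.reverse, by rw [List.length_reverse]; exact v.2⟩
  invFun v := ⟨v.1.reverse, by rw [List.length_reverse]; exact v.2⟩
  left_inv v := by apply Subtype.ext; simp
  right_inv v := by apply Subtype.ext; simp

private theorem sum_vec_rev (l : ℕ) (f : List I → K) :
    ∑ v : List.Vector I l, f v.1.reverse = ∑ v : List.Vector I l, f v.1 :=
  Fintype.sum_equiv (revE I l) _ _ fun _ => rfl

/-! ### Symmetry in the lower places -/

/-- symmetric in the lower places -/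
private def LoS (o : I → Bool) (x : List I → List I → K) : Prop :=
  ∀ (j : ℕ) (u v : List I), sw o j (fun v => x u v) v = x u v

private theorem LoS_cons {o : I → Bool} {x : List I → List I → K} (h : LoS o x) (b : I) :
    LoS o fun u w => x u (b :: w) := fun j u v => h (j + 1) u (b :: v)

private theorem move {o : I → Bool} (a : I) (u : List I) : ∀ (v : List I)
    (x : List I → List I → K), LoS o x → x u (a :: v) = sgp K o a v * x u (v ++ [a])
  | [], x, _ => by rw [sgp_nil, one_mul, List.nil_append]
  | b :: v, x, h => by
    have h1 : ks K (o a) (o b) * x u (b :: a :: v) = x u (a :: b :: v) := h 0 u (a :: b :: v)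
    have h2 := move a u v (fun u w => x u (b :: w)) (LoS_cons h b)
    rw [← h1, h2, sgp_cons, List.cons_append]
    ring

variable (F : Form K I)

private theorem LoS_opC {x : List I → List I → K} (h : LoS F.o x) : LoS F.o (opC F x) := by
  intro j u v
  rw [sw_eq]
  unfold opC
  rw [Finset.mul_sum]
  refine Finset.sum_congr rfl fun e _ => ?_
  have h1 := h (j + 1) (e :: u) (F.st e :: v)
  have h2 : sw F.o (j + 1) (fun v => x (e :: u) v) (F.st e :: v) =
      sw F.o j (fun v => x (e :: u) (F.st e :: v)) v := rfl
  rw [h2, sw_eq] at h1
  rw [← h1]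
  ring

private theorem sgp_st (e : I) (u : List I) :
    sgp K F.o (F.st e) (u.map F.st).reverse = sgp K F.o e u := by
  rw [sgp_perm F.o (F.st e) (List.reverse_perm _)]
  unfold sgp
  rw [List.map_map, F.o_st]
  congr 1
  refine List.map_congr_left fun c _ => ?_
  simp [F.o_st]

/-- the iterated mixed contraction -/
private theorem iter_opC (n : ℕ) : ∀ x : List I → List I → K, LoS F.o x →
    (opC F)^[n] x [] [] =
      ∑ u : List.Vector I n, (u.1.map F.c).prod * x u.1 (u.1.map F.st).reverse := by
  induction n with
  | zero =>
    intro x _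
    rw [sum_vec_zero (fun u => (u.map F.c).prod * x u (u.map F.st).reverse)]
    simp
  | succ n ih =>
    intro x h
    rw [Function.iterate_succ_apply, ih _ (LoS_opC F h),
      sum_vec_succ n (fun u => (u.map F.c).prod * x u (u.map F.st).reverse), Finset.sum_comm]
    refine Finset.sum_congr rfl fun u _ => ?_
    unfold opC
    rw [Finset.mul_sum]
    refine Finset.sum_congr rfl fun e _ => ?_
    rw [move (F.st e) (e :: u.1) (u.1.map F.st).reverse x h, sgp_st]
    have h1 := sgp_sq (K := K) F.o e u.1
    rw [List.map_cons, List.map_cons, List.prod_cons, List.reverse_cons]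
    calc (u.1.map F.c).prod * (F.c e * sgp K F.o e u.1 * (sgp K F.o e u.1 *
          x (e :: u.1) ((u.1.map F.st).reverse ++ [F.st e])))
        = (sgp K F.o e u.1 * sgp K F.o e u.1) * ((F.c e * (u.1.map F.c).prod) *
          x (e :: u.1) ((u.1.map F.st).reverse ++ [F.st e])) := by ring
      _ = _ := by rw [h1, one_mul]

/-- the product of the entries of the form -/
private theorem zip_eta : ∀ (v u : List I), v.length = u.length →
    (List.zipWith (fun a b => F.η a b) v u).prod =
      if v = u.map F.st then (u.map fun e => F.c (F.st e)).prod else 0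
  | [], [], _ => by simp
  | a :: v, [], h => by simp at h
  | [], b :: u, h => by simp at h
  | a :: v, b :: u, h => by
    have h1 : v.length = u.length := by simpa using h
    rw [List.zipWith_cons_cons, List.prod_cons, zip_eta v u h1, List.map_cons, List.map_cons,
      List.prod_cons]
    have h2 : F.η a b = if b = F.st a then F.c a else 0 := rfl
    rw [h2]
    by_cases h3 : a = F.st b
    · have h4 : b = F.st a := by rw [h3, F.st_st]
      rw [if_pos h4]
      by_cases h5 : v = u.map F.st
      · rw [if_pos h5, if_pos (by rw [h3, h5]), h3]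
      · rw [if_neg h5, if_neg (fun h6 => h5 (List.cons.inj h6).2), mul_zero]
    · have h4 : ¬ b = F.st a := fun h4 => h3 (by rw [h4, F.st_st])
      rw [if_neg h4, zero_mul, if_neg (fun h6 => h3 (List.cons.inj h6).1)]

private theorem sgw_mul (u : List I) :
    sgw K F.o u * (u.map fun e => F.c (F.st e)).prod = (u.map F.c).prod := by
  unfold sgw
  induction u with
  | nil => simp
  | cons a u ih =>
    rw [List.map_cons, List.map_cons, List.map_cons, List.prod_cons, List.prod_cons,
      List.prod_cons, ← ih, ← F.sg_c_st a]
    ring

theorem pf_TRB : T_TRB := by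
  intro K _ I _ _ F n t x hx ht
  rw [iter_opC F n x hx.lo]
  refine Finset.sum_congr rfl fun u _ => ?_
  have h1 : op F.η n t u u =
      x u.1 (u.1.map F.st).reverse * (u.1.map fun e => F.c (F.st e)).prod := by
    show opw F.η n t u.1 u.1 = _
    unfold opw
    rw [← sum_vec_rev n (fun v => t (u.1 ++ v) *
      (List.zipWith (fun a b => F.η a b) v.reverse u.1).prod)]
    have hlen : (u.1.map F.st).length = n := by rw [List.length_map]; exact u.2
    let w : List.Vector I n := ⟨u.1.map F.st, hlen⟩
    have hw : w.1 = u.1.map F.st := rfl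
    rw [Fintype.sum_eq_single w]
    · rw [hw, List.reverse_reverse, zip_eta F _ _ (List.length_map _), if_pos rfl,
        ht _ _ u.2 (by rw [List.length_reverse]; exact hlen)]
    · intro v hv
      rw [List.reverse_reverse, zip_eta F _ _ (v.2.trans u.2.symm), if_neg, mul_zero]
      intro h
      exact hv (Subtype.ext h)
  rw [h1, ← sgw_mul F u.1]
  ring

end Pool.Agent.H17.KM
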